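import Mathlib
import Pool.Agent.W811.LW.Stm

set_option autoImplicit false
open Finset Filter Topology
open scoped ENNReal

namespace Pool.Agent.W86.LW

open Pool.Agent.W811.LW

/-- a bounded potential bounds the infimum from below -/
lemma key (D α : ℝ) (hD : 1 < D) (G : ℕ) (hG : D = (G : ℝ) ^ 4) (j t : ℕ) (b M : ℝ) (hM : 0 ≤ M)
    (hF : FV G α j t b ≤ ENNReal.ofReal M) (v : V3) (hv : v ∈ famV D α j) :
    1 / (max M 1) ^ 2 ≤ max |aV D t b v| |bV D j t v| := by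
  have hD0 : (0 : ℝ) < D := by linarith
  have h1 : ENNReal.ofReal (et G ((j : ℤ) - (j : ℤ)) * rs (yV ((G : ℝ) ^ 4) α j t b j))
      ≤ ENNReal.ofReal M := le_trans (ENNReal.le_tsum j) hF
  rw [← hG, ENNReal.ofReal_le_ofReal_iff hM] at h1
  have h2 : et G ((j : ℤ) - (j : ℤ)) = 1 := by simp [et]
  rw [h2, one_mul] at h1
  have hlow : ∀ w ∈ famV D α j, 1 / D ^ (2 * j + t) ≤ NN (aV D t b) (bV D j t) w := by
    intro w hw
    have hw1 : (1 : ℝ) ≤ |(w.1 : ℝ)| := by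
      have := Int.one_le_abs hw.1
      exact_mod_cast this
    have hp : (0 : ℝ) < D ^ (2 * j + t) := pow_pos hD0 _
    have : 1 / D ^ (2 * j + t) ≤ |bV D j t w| := by
      unfold bV
      rw [abs_div, abs_of_pos hp]
      exact div_le_div_of_nonneg_right hw1 hp.le
    exact this.trans (le_max_right _ _)
  have hne : (NN (aV D t b) (bV D j t) '' famV D α j).Nonempty := ⟨_, v, hv, rfl⟩
  have hpos : 0 < yV D α j t b j := by
    have : 1 / D ^ (2 * j + t) ≤ yV D α j t b j := by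
      apply le_csInf hne
      rintro _ ⟨w, hw, rfl⟩
      exact hlow w hw
    have h3 : 0 < 1 / D ^ (2 * j + t) := by positivity
    linarith
  have hle : yV D α j t b j ≤ NN (aV D t b) (bV D j t) v := by
    apply csInf_le
    · refine ⟨0, ?_⟩
      rintro _ ⟨w, hw, rfl⟩
      exact le_trans (abs_nonneg _) (le_max_left _ _)
    · exact ⟨v, hv, rfl⟩
  have hs : 0 < Real.sqrt (yV D α j t b j) := Real.sqrt_pos.mpr hpos
  have hM1 : 0 < max M 1 := lt_of_lt_of_le one_pos (le_max_right _ _)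
  have h4 : (Real.sqrt (yV D α j t b j))⁻¹ ≤ max M 1 := le_trans h1 (le_max_left _ _)
  have h5 : 1 / max M 1 ≤ Real.sqrt (yV D α j t b j) := by
    rw [one_div]
    exact inv_le_of_inv_le₀ hs h4
  have h6 : (1 / max M 1) ^ 2 ≤ yV D α j t b j := by
    calc (1 / max M 1) ^ 2 ≤ (Real.sqrt (yV D α j t b j)) ^ 2 :=
          pow_le_pow_left₀ (by positivity) h5 2
      _ = yV D α j t b j := Real.sq_sqrt hpos.le
  have h7 : 1 / (max M 1) ^ 2 = (1 / max M 1) ^ 2 := by rw [div_pow, one_pow]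
  rw [h7]
  exact h6.trans hle

theorem fin_ (h : INDC) (hs : SQ2) : FINC := by
  intro L K hL hK
  obtain ⟨b, β, M, hM0, hb, hF⟩ := h L K 1000 (1 / 4) (Real.sqrt 2) hL hK le_rfl
    (by norm_num) (by norm_num) hs
  obtain ⟨D, hDe⟩ : ∃ D : ℝ, D = ((1000 : ℕ) : ℝ) ^ 4 := ⟨_, rfl⟩
  rw [← hDe] at hb
  have hD : 1 < D := by rw [hDe]; norm_num
  have hD0 : 0 < D := by linarith
  set c3 : ℝ := 1 / (max M 1) ^ 2 with hc3
  have hM1 : 0 < max M 1 := lt_of_lt_of_le one_pos (le_max_right _ _)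
  have hc3p : 0 < c3 := by positivity
  refine ⟨Real.sqrt 2, β, D, min (1 / 4) (c3 / 2), c3 / 2 / D ^ 2, hD, by positivity,
    by positivity, ?_⟩
  intro k q p p' hq hqD hqp
  have hq0 : (0 : ℝ) < q := by exact_mod_cast hq
  set δ : ℝ := |(q : ℝ) * Real.sqrt 2 - p| with hδ
  have hbad : 1 / 4 ≤ (q : ℝ) * δ := hs q p hq
  have hδ0 : 0 < δ := by
    by_contra hcon
    have : δ = 0 := le_antisymm (not_lt.mp hcon) (abs_nonneg _)
    rw [this, mul_zero] at hbad
    norm_num at hbad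
  have hex : ∃ i : ℕ, 1 < D ^ (2 * i) * δ := by
    obtain ⟨i, hi⟩ := pow_unbounded_of_one_lt (1 / δ) hD
    refine ⟨i, ?_⟩
    have h1 : D ^ i ≤ D ^ (2 * i) := pow_le_pow_right₀ hD.le (by omega)
    have h2 : 1 / δ < D ^ (2 * i) := lt_of_lt_of_le hi h1
    rwa [div_lt_iff₀ hδ0] at h2
  classical
  obtain ⟨j, hj1, hj2⟩ : ∃ j : ℕ, D ^ (2 * j) * δ ≤ 1 ∧ 1 < D ^ (2 * j + 2) * δ := by
    have hfs := Nat.find_spec hex
    have hne : Nat.find hex ≠ 0 := by
      intro h0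
      rw [h0] at hfs
      simp at hfs
      linarith
    obtain ⟨j, hj⟩ := Nat.exists_eq_succ_of_ne_zero hne
    refine ⟨j, ?_, ?_⟩
    · have := Nat.find_min hex (m := j) (by omega)
      exact not_lt.mp this
    · rw [hj] at hfs
      have he : 2 * j.succ = 2 * j + 2 := by omega
      rwa [he] at hfs
  have hjL : 2 * j ≤ L k := by
    have h1 : D ^ (2 * j) ≤ D ^ (L k) := by
      have h2 : D ^ (2 * j) * δ ≤ 4 * (q : ℝ) * δ := by linarith
      have h3 : D ^ (2 * j) ≤ 4 * (q : ℝ) := le_of_mul_le_mul_right h2 hδ0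
      have h4 : (q : ℝ) ≤ 1 / 4 * D ^ (L k) :=
        hqD.trans (mul_le_mul_of_nonneg_right (min_le_left _ _) (by positivity))
      linarith
    exact (pow_le_pow_iff_right₀ hD).mp h1
  obtain ⟨t, ht⟩ : ∃ t, L k = 2 * j + t := ⟨L k - 2 * j, by omega⟩
  have hFk := hF j t k ht
  have hv : ((q, p, p') : V3) ∈ famV D (Real.sqrt 2) j := by
    refine ⟨?_, ?_⟩
    · show q ≠ 0
      omega
    · show |(q : ℝ) * Real.sqrt 2 - (p : ℝ)| * D ^ (2 * j) ≤ 1
      rw [mul_comm]; exact hj1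
  have hkey := key D (Real.sqrt 2) hD 1000 hDe j t (b (j + t)) M hM0 hFk (q, p, p') hv
  rw [← hc3] at hkey
  have hPt : (0 : ℝ) < D ^ t := pow_pos hD0 _
  have hPL : (0 : ℝ) < D ^ (2 * j + t) := pow_pos hD0 _
  rw [ht] at hqD ⊢
  have hbq : (q : ℝ) / D ^ (2 * j + t) ≤ c3 / 2 := by
    rw [div_le_iff₀ hPL]
    exact hqD.trans (mul_le_mul_of_nonneg_right (min_le_right _ _) hPL.le)
  have hbV : |bV D j t (q, p, p')| ≤ c3 / 2 := by
    unfold bV
    show |(q : ℝ) / D ^ (2 * j + t)| ≤ c3 / 2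
    rw [abs_of_pos (div_pos hq0 hPL)]
    exact hbq
  have haV : c3 ≤ |aV D t (b (j + t)) (q, p, p')| := by
    rcases le_max_iff.mp hkey with h1 | h1
    · exact h1
    · exfalso; linarith
  have haV2 : c3 ≤ D ^ t * |(q : ℝ) * b (j + t) - p'| := by
    have : |aV D t (b (j + t)) (q, p, p')| = D ^ t * |(q : ℝ) * b (j + t) - p'| := by
      unfold aV
      show |D ^ t * ((q : ℝ) * b (j + t) - (p' : ℝ))| = _
      rw [abs_mul, abs_of_pos hPt]
    rwa [this] at haV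
  have hbn := hb (j + t)
  have htri : |(q : ℝ) * b (j + t) - p'| ≤ |(q : ℝ) * β - p'| + q * |β - b (j + t)| := by
    have e1 : (q : ℝ) * b (j + t) - p' = ((q : ℝ) * β - p') - q * (β - b (j + t)) := by ring
    rw [e1]
    refine (abs_sub _ _).trans ?_
    rw [abs_mul (q : ℝ), abs_of_pos hq0]
  have hsm : D ^ t * ((q : ℝ) * |β - b (j + t)|) ≤ c3 / 2 := by
    have h1 : D ^ t * ((q : ℝ) * |β - b (j + t)|) ≤ D ^ t * ((q : ℝ) * (1 / D ^ (2 * (j + t)))) := by
      gcongr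
    have h2 : D ^ t * ((q : ℝ) * (1 / D ^ (2 * (j + t)))) = (q : ℝ) / D ^ (2 * j + t) := by
      have e : D ^ (2 * (j + t)) = D ^ (2 * j + t) * D ^ t := by
        rw [← pow_add]; congr 1; ring
      rw [e]
      field_simp
    rw [h2] at h1
    exact h1.trans hbq
  have hfin : c3 / 2 ≤ D ^ t * |(q : ℝ) * β - p'| := by
    have h1 : D ^ t * |(q : ℝ) * b (j + t) - p'| ≤
        D ^ t * (|(q : ℝ) * β - p'| + q * |β - b (j + t)|) :=
      mul_le_mul_of_nonneg_left htri hPt.le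
    rw [mul_add] at h1
    linarith
  have hδ2 : 1 / D ^ 2 ≤ D ^ (2 * j) * δ := by
    rw [div_le_iff₀ (by positivity)]
    have e : D ^ (2 * j + 2) * δ = D ^ (2 * j) * δ * D ^ 2 := by rw [pow_add]; ring
    rw [e] at hj2
    exact hj2.le
  have hprod : D ^ (2 * j + t) * (δ * |(q : ℝ) * β - p'|) =
      (D ^ (2 * j) * δ) * (D ^ t * |(q : ℝ) * β - p'|) := by
    rw [pow_add]; ring
  rw [hprod]
  calc c3 / 2 / D ^ 2 = (1 / D ^ 2) * (c3 / 2) := by ring
    _ ≤ (D ^ (2 * j) * δ) * (D ^ t * |(q : ℝ) * β - p'|) :=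
        mul_le_mul hδ2 hfin (by positivity) (by positivity)

end Pool.Agent.W86.LW
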